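import Pool.Agent.Q92.PS.DSUM

/-!
# Project PS: `S_RSP` (convergence of the Rankin-Selberg product)
-/

set_option autoImplicit false

open Finset Polynomial ComplexConjugate
open Pool.Agent.H341R2.Sharp (Mon mem_Mon)

namespace Pool.Agent.Q92.PS

open Pool.Agent.Q284.PS

theorem prod_est {ι : Type*} [DecidableEq ι] {ρ : ℝ} (hρ : ρ < 1) (s : Finset ι) :
    ∃ C : ℝ, 0 ≤ C ∧ ∀ (β : ι → ℂ) (x : ℂ), (∀ i, ‖β i‖ ≤ 1) → ‖x‖ ≤ ρ →
      ‖∏ i ∈ s, (1 - β i * x)⁻¹ - 1 - (∑ i ∈ s, β i) * x‖ ≤ C * ‖x‖ ^ 2 := by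
  induction s using Finset.induction_on with
  | empty =>
    refine ⟨0, le_rfl, fun β x _ _ => ?_⟩
    simp
  | insert i s hi ih =>
    obtain ⟨C, hC, h⟩ := ih
    have hρ' : 0 < 1 - ρ := by linarith
    refine ⟨C / (1 - ρ) + (1 + s.card) / (1 - ρ) + s.card, by positivity, fun β x hβ hx => ?_⟩
    have hx1 : ‖x‖ ≤ 1 := hx.trans hρ.le
    set y := β i * x with hy
    have hyn : ‖y‖ ≤ ‖x‖ := by
      rw [hy, norm_mul]
      exact mul_le_of_le_one_left (norm_nonneg _) (hβ i)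
    have h1y : 1 - ρ ≤ ‖1 - y‖ := by
      have := norm_sub_norm_le (1 : ℂ) y
      rw [norm_one] at this
      linarith
    have h1y0 : 1 - y ≠ 0 := by
      intro h0
      rw [h0, norm_zero] at h1y
      linarith
    have hinv : ‖(1 - y)⁻¹‖ ≤ 1 / (1 - ρ) := by
      rw [norm_inv, ← one_div]
      exact one_div_le_one_div_of_le hρ' h1y
    have hb : ‖∑ j ∈ s, β j‖ ≤ s.card := by
      refine (norm_sum_le _ _).trans ?_
      have := Finset.sum_le_sum (s := s) (fun j _ => hβ j)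
      simpa using this
    rw [Finset.prod_insert hi, Finset.sum_insert hi]
    set A := ∏ j ∈ s, (1 - β j * x)⁻¹ with hA
    set b := ∑ j ∈ s, β j with hbdef
    have e : (1 - y)⁻¹ * A - 1 - (β i + b) * x =
        (A - 1 - b * x) * (1 - y)⁻¹ + (1 + b * x) * (y ^ 2 * (1 - y)⁻¹) + b * x * y := by
      have e1 : β i * x = y := hy.symm
      have e2 : y ^ 2 * (1 - y)⁻¹ = (1 - y)⁻¹ - 1 - y := by
        field_simp
        ring
      rw [e2]
      linear_combination (-1 : ℂ) * e1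
    rw [e]
    have n1 : ‖(A - 1 - b * x) * (1 - y)⁻¹‖ ≤ C * ‖x‖ ^ 2 * (1 / (1 - ρ)) := by
      rw [norm_mul]
      exact mul_le_mul (h β x hβ hx) hinv (norm_nonneg _) (by positivity)
    have n2 : ‖(1 + b * x) * (y ^ 2 * (1 - y)⁻¹)‖ ≤ (1 + s.card) * (‖x‖ ^ 2 * (1 / (1 - ρ))) := by
      rw [norm_mul, norm_mul, norm_pow]
      have n3 : ‖1 + b * x‖ ≤ 1 + s.card := by
        refine (norm_add_le _ _).trans ?_
        rw [norm_one, norm_mul]
        have : ‖b‖ * ‖x‖ ≤ s.card * 1 := mul_le_mul hb hx1 (norm_nonneg _) (by positivity)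
        linarith
      have n4 : ‖y‖ ^ 2 ≤ ‖x‖ ^ 2 := pow_le_pow_left₀ (norm_nonneg _) hyn 2
      exact mul_le_mul n3 (mul_le_mul n4 hinv (norm_nonneg _) (by positivity)) (by positivity)
        (by positivity)
    have n5 : ‖b * x * y‖ ≤ s.card * ‖x‖ ^ 2 := by
      rw [norm_mul, norm_mul, mul_assoc]
      refine mul_le_mul hb ?_ (by positivity) (by positivity)
      rw [pow_two]
      exact mul_le_mul_of_nonneg_left hyn (norm_nonneg _)
    calc _ ≤ ‖(A - 1 - b * x) * (1 - y)⁻¹‖ + ‖(1 + b * x) * (y ^ 2 * (1 - y)⁻¹)‖ + ‖b * x * y‖ :=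
          (norm_add_le _ _).trans (add_le_add (norm_add_le _ _) le_rfl)
      _ ≤ C * ‖x‖ ^ 2 * (1 / (1 - ρ)) + (1 + s.card) * (‖x‖ ^ 2 * (1 / (1 - ρ))) +
          s.card * ‖x‖ ^ 2 := add_le_add (add_le_add n1 n2) n5
      _ = _ := by ring

section count

variable {F : Type} [Field F] [Fintype F]

theorem card_Mon_le (n : ℕ) : (Mon F n).card ≤ Fintype.card F ^ n := by
  classical
  have h1 : Fintype.card (Fin n → F) = Fintype.card F ^ n := by simp
  rw [← h1, ← Finset.card_univ]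
  refine Finset.card_le_card_of_injOn (fun f => fun i : Fin n => f.coeff i)
    (fun _ _ => Finset.mem_coe.2 (Finset.mem_univ _)) ?_
  intro f hf h hh hfh
  have hf' := mem_Mon.1 (Finset.mem_coe.1 hf)
  have hh' := mem_Mon.1 (Finset.mem_coe.1 hh)
  ext i
  rcases lt_trichotomy i n with hi | rfl | hi
  · exact congrFun hfh ⟨i, hi⟩
  · have e1 := hf'.1.coeff_natDegree
    have e2 := hh'.1.coeff_natDegree
    rw [hf'.2] at e1
    rw [hh'.2] at e2
    rw [e1, e2]
  · rw [coeff_eq_zero_of_natDegree_lt (by rw [hf'.2]; exact hi),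
      coeff_eq_zero_of_natDegree_lt (by rw [hh'.2]; exact hi)]

theorem summable_deg {r : ℝ} (hr : 0 ≤ r) (hq : qq F * r < 1) :
    Summable (fun P : {P : F[X] // P.Monic ∧ Irreducible P} => r ^ P.1.natDegree) := by
  have hq0 : 0 ≤ qq F := by unfold qq; positivity
  have h1 : Summable (fun k : ℕ => (∑ f ∈ Mon F k, ‖(1 : ℂ)‖) * ‖(r : ℂ)‖ ^ k) := by
    refine Summable.of_nonneg_of_le (fun k => by positivity) (fun k => ?_)
      (summable_geometric_of_lt_one (mul_nonneg hq0 hr) hq)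
    rw [norm_one, Finset.sum_const, nsmul_eq_mul, mul_one, Complex.norm_real, Real.norm_eq_abs,
      abs_of_nonneg hr, mul_pow]
    refine mul_le_mul_of_nonneg_right ?_ (pow_nonneg hr k)
    unfold qq
    exact_mod_cast card_Mon_le k
  have h2 := (t_DSUM F (fun _ => (1 : ℂ)) (r : ℂ) h1).1
  have h3 : Function.Injective (fun P : {P : F[X] // P.Monic ∧ Irreducible P} =>
      (⟨P.1, P.2.1⟩ : {f : F[X] // f.Monic})) := fun P P' h =>
    Subtype.ext (congrArg (fun z : {f : F[X] // f.Monic} => z.1) h)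
  have h4 := h2.comp_injective h3
  refine h4.congr fun P => ?_
  show ‖(1 : ℂ) * (r : ℂ) ^ P.1.natDegree‖ = _
  rw [one_mul, norm_pow, Complex.norm_real, Real.norm_eq_abs, abs_of_nonneg hr]

end count

theorem t_RSP : S_RSP := by
  classical
  intro F _ _ hchar n α hα s hs
  have hq1 : 1 < qq F := by
    unfold qq
    exact_mod_cast Fintype.one_lt_card
  have hq0 : 0 < qq F := by linarith
  set ρ : ℝ := qq F ^ (-s.re) with hρdef
  have hρ0 : 0 < ρ := Real.rpow_pos_of_pos hq0 _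
  have hρ1 : ρ < 1 := Real.rpow_lt_one_of_one_lt_of_neg hq1 (by linarith)
  obtain ⟨C, hC, hest⟩ := prod_est hρ1 (Finset.univ : Finset (Fin n × Fin n))
  set r₁ : ℝ := qq F ^ (-(1 / 2) : ℝ) * ρ with hr₁
  have hr1 : qq F * r₁ < 1 := by
    have e : qq F * r₁ = qq F ^ (1 / 2 - s.re) := by
      rw [hr₁, hρdef, ← Real.rpow_add hq0]
      nth_rewrite 1 [← Real.rpow_one (qq F)]
      rw [← Real.rpow_add hq0]
      congr 1
      ring
    rw [e]
    exact Real.rpow_lt_one_of_one_lt_of_neg hq1 (by linarith)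
  have hr2 : qq F * ρ ^ 2 < 1 := by
    have e : qq F * ρ ^ 2 = qq F ^ (1 - 2 * s.re) := by
      rw [hρdef, ← Real.rpow_natCast, ← Real.rpow_mul hq0.le]
      nth_rewrite 1 [← Real.rpow_one (qq F)]
      rw [← Real.rpow_add hq0]
      congr 1
      push_cast
      ring
    rw [e]
    exact Real.rpow_lt_one_of_one_lt_of_neg hq1 (by linarith)
  have s1 := summable_deg (F := F) (r := r₁) (by positivity) hr1
  have s2 := summable_deg (F := F) (r := ρ ^ 2) (by positivity) hr2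
  refine Summable.of_nonneg_of_le (fun _ => norm_nonneg _) (fun P => ?_) (s1.add (s2.mul_left C))
  obtain ⟨hα1, hα2⟩ := hα P.1 P.2.1 P.2.2
  set x : ℂ := (qq F : ℂ) ^ (-s * P.1.natDegree) with hx
  have hxn : ‖x‖ = ρ ^ P.1.natDegree := by
    rw [hx, Complex.norm_cpow_eq_rpow_re_of_pos hq0, hρdef, ← Real.rpow_natCast,
      ← Real.rpow_mul hq0.le]
    congr 1
    simp
  have hxρ : ‖x‖ ≤ ρ := by
    rw [hxn]
    exact pow_le_of_le_one hρ0.le hρ1.le P.2.2.natDegree_pos.ne'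
  have hprod : ∏ i, ∏ j, (1 - α P.1 i * conj (α P.1 j) * x)⁻¹ =
      ∏ p : Fin n × Fin n, (1 - (α P.1 p.1 * conj (α P.1 p.2)) * x)⁻¹ := by
    rw [Fintype.prod_prod_type]
  have hsum : ∑ p : Fin n × Fin n, α P.1 p.1 * conj (α P.1 p.2) =
      (∑ j, α P.1 j) * conj (∑ j, α P.1 j) := by
    rw [Fintype.sum_prod_type, map_sum, Finset.sum_mul_sum]
  have h1 := hest (fun p => α P.1 p.1 * conj (α P.1 p.2)) x (fun p => by
    rw [norm_mul, RCLike.norm_conj, hα1, hα1, one_mul]) hxρ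
  rw [hprod]
  rw [hsum] at h1
  have h2 : ‖(∑ j, α P.1 j) * conj (∑ j, α P.1 j) * x‖ ≤ r₁ ^ P.1.natDegree := by
    rw [norm_mul, norm_mul, RCLike.norm_conj, hxn, hr₁, mul_pow]
    refine mul_le_mul_of_nonneg_right ?_ (by positivity)
    calc ‖∑ j, α P.1 j‖ * ‖∑ j, α P.1 j‖ ≤ qq F ^ (-((P.1.natDegree : ℝ) / 4)) *
          qq F ^ (-((P.1.natDegree : ℝ) / 4)) :=
          mul_le_mul hα2 hα2 (norm_nonneg _) (by positivity)
      _ = (qq F ^ (-(1 / 2) : ℝ)) ^ P.1.natDegree := by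
          rw [← Real.rpow_add hq0, ← Real.rpow_natCast, ← Real.rpow_mul hq0.le]
          congr 1
          ring
  have h3 : ∏ p : Fin n × Fin n, (1 - (α P.1 p.1 * conj (α P.1 p.2)) * x)⁻¹ - 1 =
      (∏ p : Fin n × Fin n, (1 - (α P.1 p.1 * conj (α P.1 p.2)) * x)⁻¹ - 1 -
        (∑ j, α P.1 j) * conj (∑ j, α P.1 j) * x) + (∑ j, α P.1 j) * conj (∑ j, α P.1 j) * x := by
    ring
  rw [h3]
  refine (norm_add_le _ _).trans ?_
  rw [add_comm]
  refine add_le_add h2 (h1.trans (le_of_eq ?_))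
  rw [hxn, ← pow_mul, ← pow_mul, mul_comm P.1.natDegree]

end Pool.Agent.Q92.PS
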