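import Pool.Agent.Q284.PS.Stm3

/-!
# Project PS: `S_DSUM` (grouping a series over the monic polynomials by degree)
-/

set_option autoImplicit false

open Finset Polynomial
open Pool.Agent.H341R2.Sharp (Mon mem_Mon)

namespace Pool.Agent.Q92.PS

open Pool.Agent.Q284.PS

/-- the monic polynomials, by degree -/
noncomputable def sigMon (F : Type) [Field F] [Fintype F] :
    (Σ k : ℕ, {f : F[X] // f ∈ Mon F k}) ≃ {f : F[X] // f.Monic} where
  toFun x := ⟨x.2.1, (mem_Mon.1 x.2.2).1⟩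
  invFun f := ⟨f.1.natDegree, f.1, mem_Mon.2 ⟨f.2, rfl⟩⟩
  left_inv := by
    rintro ⟨k, f, hf⟩
    obtain ⟨-, rfl⟩ := mem_Mon.1 hf
    rfl
  right_inv f := rfl

theorem t_DSUM : S_DSUM := by
  intro F _ _ g z hs
  have hdeg : ∀ (k : ℕ) (f : {f : F[X] // f ∈ Mon F k}), f.1.natDegree = k := fun k f =>
    (mem_Mon.1 f.2).2
  have e0 : ∀ k : ℕ, ∑' f : {f : F[X] // f ∈ Mon F k}, ‖g f.1 * z ^ f.1.natDegree‖ =
      (∑ f ∈ Mon F k, ‖g f‖) * ‖z‖ ^ k := by
    intro k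
    rw [Finset.tsum_subtype (Mon F k) (fun f => ‖g f * z ^ f.natDegree‖), Finset.sum_mul]
    refine Finset.sum_congr rfl fun f hf => ?_
    rw [(mem_Mon.1 hf).2, norm_mul, norm_pow]
  have h1 : Summable (fun x : Σ k : ℕ, {f : F[X] // f ∈ Mon F k} =>
      ‖g x.2.1 * z ^ x.2.1.natDegree‖) := by
    rw [summable_sigma_of_nonneg (fun _ => norm_nonneg _)]
    refine ⟨fun k => Summable.of_finite, ?_⟩
    simp only [e0]
    exact hs
  have h2 : Summable (fun f : {f : F[X] // f.Monic} => ‖g f.1 * z ^ f.1.natDegree‖) :=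
    (sigMon F).summable_iff.1 h1
  refine ⟨h2, ?_⟩
  rw [← (sigMon F).tsum_eq (fun f : {f : F[X] // f.Monic} => g f.1 * z ^ f.1.natDegree)]
  have h3 : Summable (fun x : Σ k : ℕ, {f : F[X] // f ∈ Mon F k} =>
      g x.2.1 * z ^ x.2.1.natDegree) := h1.of_norm
  have h4 := h3.tsum_sigma' (fun k => Summable.of_finite)
  refine h4.trans (tsum_congr fun k => ?_)
  show ∑' f : {f : F[X] // f ∈ Mon F k}, g f.1 * z ^ f.1.natDegree = _
  rw [Finset.tsum_subtype (Mon F k) (fun f => g f * z ^ f.natDegree), Finset.sum_mul]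
  refine Finset.sum_congr rfl fun f hf => ?_
  rw [(mem_Mon.1 hf).2]

end Pool.Agent.Q92.PS
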