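import Pool.Agent.Q284.PS.Stm3

/-!
# Project PS: `S_EUL` (Euler products over `F[X]`)
-/

set_option autoImplicit false

open Finset Polynomial Filter Topology

namespace Pool.Agent.Q92.PS

open Pool.Agent.Q284.PS

section

variable {F : Type} [Field F]

/-- the monic polynomials all of whose monic prime factors are in `S` -/
def NS (S : Finset {P : F[X] // P.Monic ∧ Irreducible P}) : Set {f : F[X] // f.Monic} :=
  {f | ∀ P : {P : F[X] // P.Monic ∧ Irreducible P}, P.1 ∣ f.1 → P ∈ S}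

theorem exists_primes (f : {f : F[X] // f.Monic}) :
    ∃ S : Finset {P : F[X] // P.Monic ∧ Irreducible P},
      ∀ P : {P : F[X] // P.Monic ∧ Irreducible P}, P.1 ∣ f.1 → P ∈ S := by
  classical
  refine ⟨(UniqueFactorizationMonoid.normalizedFactors f.1).toFinset.subtype
    (fun P => P.Monic ∧ Irreducible P), fun P hP => ?_⟩
  rw [Finset.mem_subtype, Multiset.mem_toFinset, Polynomial.mem_normalizedFactors_iff f.2.ne_zero]
  exact ⟨P.2.2, P.2.1, hP⟩

theorem monic_eq_of_dvd {P P' : {P : F[X] // P.Monic ∧ Irreducible P}} (h : P.1 ∣ P'.1) : P = P' :=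
  Subtype.ext (eq_of_monic_of_associated P.2.1 P'.2.1 (P.2.2.associated_of_dvd P'.2.2 h))

/-- the bijection -/
noncomputable def mulMap {S : Finset {P : F[X] // P.Monic ∧ Irreducible P}} [DecidableEq {P : F[X] // P.Monic ∧ Irreducible P}]
    (P : {P : F[X] // P.Monic ∧ Irreducible P}) (x : ℕ × NS S) : NS (insert P S) :=
  ⟨⟨P.1 ^ x.1 * x.2.1.1, (P.2.1.pow _).mul x.2.1.2⟩, fun P' hP' => by
    rw [Finset.mem_insert]
    rcases P'.2.2.prime.dvd_or_dvd hP' with h | h
    · exact Or.inl (monic_eq_of_dvd (P'.2.2.prime.dvd_of_dvd_pow h))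
    · exact Or.inr (x.2.2 P' h)⟩

theorem mulMap_bij {S : Finset {P : F[X] // P.Monic ∧ Irreducible P}}
    [DecidableEq {P : F[X] // P.Monic ∧ Irreducible P}]
    {P : {P : F[X] // P.Monic ∧ Irreducible P}} (hP : P ∉ S) :
    Function.Bijective (mulMap (S := S) P) := by
  have hnd : ∀ f : NS S, ¬ P.1 ∣ f.1.1 := fun f h => hP (f.2 P h)
  have aux : ∀ (k m : ℕ) (f f' : NS S), k ≤ m → P.1 ^ k * f.1.1 = P.1 ^ m * f'.1.1 → k = m := by
    intro k m f f' hkm h
    by_contra hne
    obtain ⟨j, rfl⟩ := Nat.exists_eq_add_of_le hkm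
    rw [pow_add, mul_assoc] at h
    have h1 := mul_left_cancel₀ (pow_ne_zero k P.2.1.ne_zero) h
    apply hnd f
    rw [h1]
    exact (dvd_pow_self _ (by omega)).mul_right _
  constructor
  · rintro ⟨k, f⟩ ⟨m, f'⟩ h
    have h1 : P.1 ^ k * f.1.1 = P.1 ^ m * f'.1.1 := congrArg (fun z => z.1.1) h
    have h2 : k = m := by
      rcases le_total k m with h3 | h3
      · exact aux k m f f' h3 h1
      · exact (aux m k f' f h3 h1.symm).symm
    subst h2
    have h3 := mul_left_cancel₀ (pow_ne_zero k P.2.1.ne_zero) h1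
    rw [Prod.mk.injEq]
    exact ⟨rfl, Subtype.ext (Subtype.ext h3)⟩
  · rintro ⟨⟨f, hf⟩, hfS⟩
    have hfin : FiniteMultiplicity P.1 f := FiniteMultiplicity.of_not_isUnit P.2.2.not_isUnit hf.ne_zero
    obtain ⟨f0, h1, h2⟩ := hfin.exists_eq_pow_mul_and_not_dvd
    have h3 : f0.Monic := by
      rw [h1] at hf
      exact (P.2.1.pow _).of_mul_monic_left hf
    refine ⟨⟨multiplicity P.1 f, ⟨⟨f0, h3⟩, fun P' hP' => ?_⟩⟩, ?_⟩
    · have h4 : P' ∈ insert P S := hfS P' (by
        show P'.1 ∣ f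
        rw [h1]
        exact Dvd.dvd.mul_left hP' _)
      rcases Finset.mem_insert.1 h4 with rfl | h5
      · exact absurd hP' h2
      · exact h5
    · exact Subtype.ext (Subtype.ext h1.symm)

theorem coprime_pow {P : {P : F[X] // P.Monic ∧ Irreducible P}} (k : ℕ) {f : F[X]}
    (h : ¬ P.1 ∣ f) : IsCoprime (P.1 ^ k) f :=
  IsCoprime.pow_left ((P.2.2.coprime_iff_not_dvd).2 h)

theorem pow_inj (P : {P : F[X] // P.Monic ∧ Irreducible P}) :
    Function.Injective (fun k : ℕ => (⟨P.1 ^ k, P.2.1.pow k⟩ : {f : F[X] // f.Monic})) := by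
  intro k m h
  have h1 : P.1 ^ k = P.1 ^ m := congrArg Subtype.val h
  have h2 := congrArg natDegree h1
  rw [P.2.1.natDegree_pow, P.2.1.natDegree_pow] at h2
  exact Nat.eq_of_mul_eq_mul_right P.2.2.natDegree_pos h2

theorem partial_prod {g : F[X] → ℂ} (h1 : g 1 = 1)
    (hm : ∀ f h : F[X], f.Monic → h.Monic → IsCoprime f h → g (f * h) = g f * g h)
    (hs : Summable (fun f : {f : F[X] // f.Monic} => ‖g f.1‖))
    (S : Finset {P : F[X] // P.Monic ∧ Irreducible P}) :
    ∏ P ∈ S, ∑' k : ℕ, g (P.1 ^ k) = ∑' f : NS S, g f.1.1 := by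
  classical
  induction S using Finset.induction_on with
  | empty =>
    have h2 : ∀ f : NS (∅ : Finset {P : F[X] // P.Monic ∧ Irreducible P}), f.1.1 = 1 := by
      intro f
      by_contra h3
      have h4 : ¬ IsUnit f.1.1 := fun h => h3 (f.1.2.eq_one_of_isUnit h)
      obtain ⟨p, hp1, hp2, hp3⟩ := Polynomial.exists_monic_irreducible_factor f.1.1 h4
      have := f.2 ⟨p, hp1, hp2⟩ hp3
      simp at this
    have hu : Unique (NS (∅ : Finset {P : F[X] // P.Monic ∧ Irreducible P})) :=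
      { default := ⟨⟨1, monic_one⟩, fun P hP => by
          exact absurd (isUnit_of_dvd_one hP) P.2.2.not_isUnit⟩
        uniq := fun f => Subtype.ext (Subtype.ext (h2 f)) }
    rw [Finset.prod_empty, tsum_fintype, Fintype.sum_unique]
    rw [h2, h1]
  | insert P S hP ih =>
    rw [Finset.prod_insert hP, ih]
    have e1 : ∑' f : NS (insert P S), g f.1.1 =
        ∑' x : ℕ × NS S, g (P.1 ^ x.1 * x.2.1.1) :=
      ((Equiv.ofBijective _ (mulMap_bij hP)).tsum_eq (fun f : NS (insert P S) => g f.1.1)).symm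
    have e2 : ∀ x : ℕ × NS S, g (P.1 ^ x.1 * x.2.1.1) = g (P.1 ^ x.1) * g x.2.1.1 := fun x =>
      hm _ _ (P.2.1.pow _) x.2.1.2 (coprime_pow _ fun h => hP (x.2.2 P h))
    rw [e1, tsum_congr e2]
    exact tsum_mul_tsum_of_summable_norm (f := fun k : ℕ => g (P.1 ^ k))
      (g := fun f : NS S => g f.1.1) (hs.comp_injective (pow_inj P))
      (hs.comp_injective Subtype.val_injective)

end

theorem t_EUL : S_EUL := by
  intro F _ g h1 hm hs
  classical
  show Tendsto _ _ _
  simp only [SummationFilter.unconditional_filter]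
  have e1 : ∀ S : Finset {P : F[X] // P.Monic ∧ Irreducible P},
      ∏ P ∈ S, ∑' k : ℕ, g (P.1 ^ k) =
        ∑' f : {f : F[X] // f.Monic}, (NS S).indicator (fun f => g f.1) f := fun S => by
    rw [partial_prod h1 hm hs S]
    exact tsum_subtype (NS S) (fun f => g f.1)
  simp only [e1]
  refine tendsto_tsum_of_dominated_convergence hs (fun f => ?_) (Eventually.of_forall fun S f => ?_)
  · obtain ⟨S₀, hS₀⟩ := exists_primes f
    refine tendsto_const_nhds.congr' ?_
    filter_upwards [eventually_ge_atTop S₀] with S hS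
    rw [Set.indicator_of_mem]
    exact fun P hP => hS (hS₀ P hP)
  · exact norm_indicator_le_norm_self _ _

end Pool.Agent.Q92.PS
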